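import Mathlib

/-!
# A constant factor improvement of de Caen's bound: definitions and pieces

`T` is a set of triples of `Fin n` (the missing triples of a 3-graph). `K T j` is the set of the
`j`-sets which contain no member of `T`.
-/

set_option autoImplicit false

open Finset

open scoped Classical

namespace Pool.Agent.T9h35.DC

variable {n : ℕ}

/-- `A` contains no member of `T`. -/
def Ind (T : Finset (Finset (Fin n))) (A : Finset (Fin n)) : Prop := ∀ e ∈ T, ¬ e ⊆ A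

/-- All members of `T` have three elements. -/
def Tri (T : Finset (Finset (Fin n))) : Prop := ∀ e ∈ T, e.card = 3

/-- The `j`-sets which contain no member of `T`. -/
noncomputable def K (T : Finset (Finset (Fin n))) (j : ℕ) : Finset (Finset (Fin n)) :=
  (powersetCard j univ).filter (Ind T)

/-- The vertices which can be added to `A`. -/
noncomputable def avail (T : Finset (Finset (Fin n))) (A : Finset (Fin n)) : Finset (Fin n) :=
  univ.filter fun v => v ∉ A ∧ Ind T (insert v A)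

/-- The number of `j`-sets which contain no member of `T`. -/
noncomputable def N (T : Finset (Finset (Fin n))) (j : ℕ) : ℝ := ((K T j).card : ℝ)

/-- The average number of vertices which cannot be added to a member of `K T j`
(the vertices of the set included). -/
noncomputable def Y (T : Finset (Finset (Fin n))) (j : ℕ) : ℝ :=
  (n : ℝ) - ((j : ℝ) + 1) * N T (j + 1) / N T j

/-- The vertices which are blocked by at least two pairs in `A`. -/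
noncomputable def multi (T : Finset (Finset (Fin n))) (A : Finset (Fin n)) : Finset (Fin n) :=
  univ.filter fun v => ∃ e₁ e₂ : Finset (Fin n), e₁ ≠ e₂ ∧ e₁ ⊆ A ∧ e₂ ⊆ A ∧ e₁.card = 2 ∧
    e₂.card = 2 ∧ insert v e₁ ∈ T ∧ insert v e₂ ∈ T

/-- The average number of vertices which are blocked by at least two pairs. -/
noncomputable def M (T : Finset (Finset (Fin n))) (j : ℕ) : ℝ :=
  (∑ A ∈ K T j, ((multi T A).card : ℝ)) / N T j

/-- Twice the degree of `v`: the number of ordered pairs `a, b` with `{v, a, b} ∈ T`. -/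
noncomputable def dg (T : Finset (Finset (Fin n))) (v : Fin n) : ℝ :=
  ∑ a : Fin n, ∑ b : Fin n, if ({v, a, b} : Finset (Fin n)) ∈ T then (1 : ℝ) else 0

/-- The number of ordered triples in `T` (`6 * T.card`). -/
noncomputable def tt (T : Finset (Finset (Fin n))) : ℝ := ∑ v : Fin n, dg T v

/-- The codegree of `a` and `b`. -/
noncomputable def cod (T : Finset (Finset (Fin n))) (a b : Fin n) : ℝ :=
  ∑ x : Fin n, if ({a, b, x} : Finset (Fin n)) ∈ T then (1 : ℝ) else 0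

/-- The probability that a random member of `K T j` contains `W`. -/
noncomputable def pr (T : Finset (Finset (Fin n))) (j : ℕ) (W : Finset (Fin n)) : ℝ :=
  (((K T j).filter fun A => W ⊆ A).card : ℝ) / N T j

/-- The probability that `v` cannot be added to a random member of `K T j`. -/
noncomputable def pa (T : Finset (Finset (Fin n))) (j : ℕ) (v : Fin n) : ℝ :=
  (((K T j).filter fun A => v ∉ avail T A).card : ℝ) / N T j

/-- The probability that the set `W` can be added to a random member of `K T j`. -/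
noncomputable def qq (T : Finset (Finset (Fin n))) (j : ℕ) (W : Finset (Fin n)) : ℝ :=
  (((K T j).filter fun B => Disjoint W B ∧ Ind T (W ∪ B)).card : ℝ) / N T j

/-- Every `m`-set contains a member of `T`. -/
def Cov (T : Finset (Finset (Fin n))) (m : ℕ) : Prop :=
  ∀ W : Finset (Fin n), W.card = m → ∃ e ∈ T, e ⊆ W

/-- All sets in `K T i`, `i < j`, have on average at least `(1 - z) n` vertices which can be added. -/
def Grow (T : Finset (Finset (Fin n))) (j : ℕ) (z : ℝ) : Prop :=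
  ∀ i < j, (1 - z) * n * N T i ≤ ((i : ℝ) + 1) * N T (i + 1)

/-! ### The pieces -/

/-- (A) Double counting. -/
def StDbl : Prop := ∀ (n : ℕ) (T : Finset (Finset (Fin n))) (j : ℕ)
  (F : Finset (Fin n) → Fin n → ℝ),
  ∑ A ∈ K T (j + 1), ∑ y ∈ A, F (A.erase y) y = ∑ B ∈ K T j, ∑ v ∈ avail T B, F B v

/-- (B) The recursion: with `S` the number of `(A, v, y)`, `A ∈ K T j`, `v ∉ A`, `y ∈ A`, such that
`A - y + v ∈ K T j`: `S = ∑ B ∈ K T (j - 1), (|avail B| ^ 2 - |avail B|)`, and for `v` not available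
at most two `y` work, at most one if `v ∈ multi T A`; Cauchy-Schwarz. -/
def StRec : Prop := ∀ (n : ℕ) (T : Finset (Finset (Fin n))) (j : ℕ), Tri T → 3 ≤ j → 0 < N T j →
  ((j : ℝ) - 2) * Y T j + M T j ≤ j * Y T (j - 1)

/-- (C) The beginning, and two identities. -/
def StBase : Prop := ∀ (n : ℕ) (T : Finset (Finset (Fin n))), Tri T → 3 ≤ n →
  N T 0 = 1 ∧ N T 1 = n ∧ N T 2 = n * (n - 1) / 2 ∧ tt T = 6 * T.card ∧
  Y T 0 = 0 ∧ Y T 1 = 1 ∧ Y T 2 = 2 + tt T / (n * (n - 1)) ∧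
  (∀ j : ℕ, ((j : ℝ) + 1) * N T (j + 1) ≤ n * N T j) ∧
  (∀ j : ℕ, 0 < N T j → ∑ x : Fin n, pa T j x = Y T j)

/-- (D) In a smallest covering family all degrees are almost equal (replace `u` by a copy of `v`,
all triples which contain both are in the new family). -/
def StClone : Prop := ∀ (n : ℕ) (T : Finset (Finset (Fin n))) (m : ℕ), Tri T → 3 ≤ m → Cov T m →
  (∀ T' : Finset (Finset (Fin n)), Tri T' → Cov T' m → T.card ≤ T'.card) →
  ∀ u v : Fin n, dg T u ≤ dg T v + 2 * n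

/-- (E) Sets in `K T j` which contain `W`, and ratios. -/
def StDom : Prop := ∀ (n : ℕ) (T : Finset (Finset (Fin n))) (j k : ℕ), k ≤ j → 0 < n →
  (∀ W : Finset (Fin n), W.card = k →
    pr T j W * N T j = qq T (j - k) W * N T (j - k)) ∧
  (((j : ℝ) + 1 - k) / n) ^ k * N T j ≤ N T (j - k) ∧
  ∀ z : ℝ, 0 ≤ z → z < 1 → Grow T j z → 0 < N T j →
    N T (j - k) ≤ (j / ((1 - z) * n)) ^ k * N T j ∧
    (2 ≤ j → N T (j - 2) ≤ j * (j - 1) / ((1 - z) * n) ^ 2 * N T j) ∧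
    ∀ W : Finset (Fin n), W.card = k → pr T j W ≤ (j / ((1 - z) * n)) ^ k

/-- (F) Upper bound for `Y` by the blocking pairs. -/
def StUp : Prop := ∀ (n : ℕ) (T : Finset (Finset (Fin n))) (j : ℕ), Tri T → 0 < N T j →
  Y T j ≤ j + 1 / 2 * ∑ v : Fin n, ∑ a : Fin n, ∑ b : Fin n,
    if ({v, a, b} : Finset (Fin n)) ∈ T then pr T j {a, b} else 0

/-- (G) Codegrees, pointwise. Let `L` be the codegree set of `a, b`, `ℓ` its size, `θ = i ℓ / n`,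
`Z = |B ∩ L|` for a random `B ∈ K T i`, `π x = pa T (i - 1) x`. Then
`P (x ∈ B) = N T (i - 1) / N T i * (1 - π x)`, so if `∑ x ∈ L, π x ≤ ℓ / 2` then `E Z ≥ θ / 2`;
`E Z ^ 2 ≤ (θ + θ ^ 2) / (1 - z) ^ 2`; `P (Z ≥ 1) ≥ (E Z) ^ 2 / E Z ^ 2`, and
`P (Z ≥ 1) ≤ 1 - qq T i {a, b}`. -/
def StCod : Prop := ∀ (n : ℕ) (T : Finset (Finset (Fin n))) (i : ℕ) (z : ℝ), Tri T → 0 < n →
  2 ≤ i → 0 ≤ z → z < 1 → Grow T i z → 0 < N T i → ∀ a b : Fin n, a ≠ b → 0 < cod T a b →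
  min (i * cod T a b / n) 1 ≤
    2 / cod T a b * (∑ x : Fin n, if ({a, b, x} : Finset (Fin n)) ∈ T then pa T (i - 1) x else 0) +
      8 / (1 - z) ^ 2 * (1 - qq T i {a, b})

/-- (H) Codegrees, summed over `T`: multiply (G) by the codegree and sum over `a, b`. -/
def StCodSum : Prop := ∀ (n : ℕ) (T : Finset (Finset (Fin n))) (i : ℕ) (z : ℝ), Tri T → 0 < n →
  2 ≤ i → 0 ≤ z → z < 1 → Grow T i z → 0 < N T i →
  (∑ v : Fin n, ∑ a : Fin n, ∑ b : Fin n,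
      if ({v, a, b} : Finset (Fin n)) ∈ T then min (i * cod T a b / n) 1 else 0) ≤
    2 * (∑ x : Fin n, dg T x * pa T (i - 1) x) +
      8 / (1 - z) ^ 2 * ∑ v : Fin n, ∑ a : Fin n, ∑ b : Fin n,
        if ({v, a, b} : Finset (Fin n)) ∈ T then 1 - qq T i {a, b} else 0

/-- (I) Two disjoint pairs. The number of `(v, a, b, c, d)` with `{v, a, b}, {v, c, d} ∈ T'` is at
least `tt T' ^ 2 / n`; at most `4 (tt T) C` of them have `{a, b} ∩ {c, d} ≠ ∅`; at most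
`4 (tt T) C ^ 2` contain a triple of `T` inside `{a, b, c, d}`; and for the others
`1 - qq T k {a, b, c, d}` is at most the sum of `pa T k x` over the four vertices (in total
`≤ 4 Δ ^ 2 ∑ pa`) and of `r * cod T x y` over the six pairs (in total `≤ 2 (tt T) Δ r C` for
`{a, b}, {c, d}`, and `≤ 4 (tt T) Δ r C` for the other four: for `{a, c}` choose first
`{a, c, x} ∈ T`, then `v, b` with `{v, a, b} ∈ T'`, then `d` with `{v, c, d} ∈ T'`). -/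
def StFour : Prop := ∀ (n : ℕ) (T T' : Finset (Finset (Fin n))) (k : ℕ) (C r Δ : ℝ), Tri T →
  T' ⊆ T → 0 < n → 0 < N T k → 0 ≤ C → 0 ≤ r → (∀ v, dg T v ≤ Δ) → (∀ x, pr T k {x} ≤ r) →
  (∀ v a b : Fin n, ({v, a, b} : Finset (Fin n)) ∈ T' → cod T v a ≤ C) →
  tt T' ^ 2 / n - 4 * tt T * C - 4 * tt T * C ^ 2 - 4 * Δ ^ 2 * (∑ x : Fin n, pa T k x) -
      6 * tt T * Δ * r * C ≤
    ∑ v : Fin n, ∑ a : Fin n, ∑ b : Fin n, ∑ c : Fin n, ∑ d : Fin n,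
      if ({v, a, b} : Finset (Fin n)) ∈ T' ∧ ({v, c, d} : Finset (Fin n)) ∈ T' ∧
        a ≠ c ∧ a ≠ d ∧ b ≠ c ∧ b ≠ d then qq T k {a, b, c, d} else 0

/-- (J) Three pairs, upper bounds. -/
def StThree : Prop := ∀ (n : ℕ) (T T' : Finset (Finset (Fin n))) (j : ℕ) (C r Δ : ℝ), Tri T →
  T' ⊆ T → 0 ≤ C → 0 ≤ r → 0 ≤ Δ → (∀ v, dg T v ≤ Δ) →
  (∀ W : Finset (Fin n), W.card = 5 ∨ W.card = 6 → pr T j W ≤ r ^ W.card) →
  (∀ v a b : Fin n, ({v, a, b} : Finset (Fin n)) ∈ T' → cod T v a ≤ C) →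
  (∑ v : Fin n, ∑ x : Fin n, ∑ y : Fin n, ∑ z : Fin n, ∑ e : Fin n, ∑ f : Fin n,
      if ({v, x, y} : Finset (Fin n)) ∈ T' ∧ ({v, x, z} : Finset (Fin n)) ∈ T' ∧
        ({v, e, f} : Finset (Fin n)) ∈ T' ∧ y ≠ z ∧ e ≠ x ∧ e ≠ y ∧ e ≠ z ∧ f ≠ x ∧ f ≠ y ∧ f ≠ z
      then pr T j {x, y, z, e, f} else 0) ≤ tt T * C * Δ * r ^ 5 ∧
  (∑ v : Fin n, ∑ a : Fin n, ∑ b : Fin n, ∑ c : Fin n, ∑ d : Fin n, ∑ e : Fin n, ∑ f : Fin n,
      if ({v, a, b} : Finset (Fin n)) ∈ T' ∧ ({v, c, d} : Finset (Fin n)) ∈ T' ∧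
        ({v, e, f} : Finset (Fin n)) ∈ T' ∧ a ≠ c ∧ a ≠ d ∧ b ≠ c ∧ b ≠ d ∧
        e ≠ a ∧ e ≠ b ∧ e ≠ c ∧ e ≠ d ∧ f ≠ a ∧ f ≠ b ∧ f ≠ c ∧ f ≠ d
      then pr T j {a, b, c, d, e, f} else 0) ≤ n * Δ ^ 3 * r ^ 6

/-- (K) A graph inequality. Proof: colour the vertices of `A` red and blue at random;
with `p` red and `q` blue edges, `1[p ≥ 1] 1[q ≥ 1] ≥ p q - (p choose 2) q - p (q choose 2)`;
the average of `p q` is `1/64` times the number of `(a, b, c, d)`, the average of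
`(p choose 2) q + p (q choose 2)` is `1/64` times the number of `(x, y, z, e, f)` plus `1/512` times
the number of `(a, b, c, d, e, f)`. -/
def StGraph : Prop := ∀ (n : ℕ) (A : Finset (Fin n)) (R : Fin n → Fin n → Prop),
  (∀ x y, R x y → R y x) →
  (∀ x, ¬ R x x) →
  (∑ a ∈ A, ∑ b ∈ A, ∑ c ∈ A, ∑ d ∈ A,
      if R a b ∧ R c d ∧ a ≠ c ∧ a ≠ d ∧ b ≠ c ∧ b ≠ d then (1 : ℝ) else 0) -
    (∑ x ∈ A, ∑ y ∈ A, ∑ z ∈ A, ∑ e ∈ A, ∑ f ∈ A,
      if R x y ∧ R x z ∧ R e f ∧ y ≠ z ∧ e ≠ x ∧ e ≠ y ∧ e ≠ z ∧ f ≠ x ∧ f ≠ y ∧ f ≠ z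
      then (1 : ℝ) else 0) -
    1 / 8 * (∑ a ∈ A, ∑ b ∈ A, ∑ c ∈ A, ∑ d ∈ A, ∑ e ∈ A, ∑ f ∈ A,
      if R a b ∧ R c d ∧ R e f ∧ a ≠ c ∧ a ≠ d ∧ b ≠ c ∧ b ≠ d ∧
        e ≠ a ∧ e ≠ b ∧ e ≠ c ∧ e ≠ d ∧ f ≠ a ∧ f ≠ b ∧ f ≠ c ∧ f ≠ d
      then (1 : ℝ) else 0) ≤
    if ∃ e₁ e₂ : Finset (Fin n), e₁ ≠ e₂ ∧ e₁ ⊆ A ∧ e₂ ⊆ A ∧ e₁.card = 2 ∧ e₂.card = 2 ∧
      (∃ a b, e₁ = {a, b} ∧ R a b) ∧ (∃ a b, e₂ = {a, b} ∧ R a b) then 64 else 0

/-- (L) Lower bound for `M`: apply (K) to all `A ∈ K T j` and `v`, with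
`R a b = ({v, a, b} ∈ T')`. -/
def StMulti : Prop := ∀ (n : ℕ) (T T' : Finset (Finset (Fin n))) (j : ℕ), Tri T →
  T' ⊆ T → 0 < N T j →
  (∑ v : Fin n, ∑ a : Fin n, ∑ b : Fin n, ∑ c : Fin n, ∑ d : Fin n,
      if ({v, a, b} : Finset (Fin n)) ∈ T' ∧ ({v, c, d} : Finset (Fin n)) ∈ T' ∧
        a ≠ c ∧ a ≠ d ∧ b ≠ c ∧ b ≠ d then pr T j {a, b, c, d} else 0) -
    (∑ v : Fin n, ∑ x : Fin n, ∑ y : Fin n, ∑ z : Fin n, ∑ e : Fin n, ∑ f : Fin n,
      if ({v, x, y} : Finset (Fin n)) ∈ T' ∧ ({v, x, z} : Finset (Fin n)) ∈ T' ∧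
        ({v, e, f} : Finset (Fin n)) ∈ T' ∧ y ≠ z ∧ e ≠ x ∧ e ≠ y ∧ e ≠ z ∧ f ≠ x ∧ f ≠ y ∧ f ≠ z
      then pr T j {x, y, z, e, f} else 0) -
    1 / 8 * (∑ v : Fin n, ∑ a : Fin n, ∑ b : Fin n, ∑ c : Fin n, ∑ d : Fin n, ∑ e : Fin n,
      ∑ f : Fin n,
      if ({v, a, b} : Finset (Fin n)) ∈ T' ∧ ({v, c, d} : Finset (Fin n)) ∈ T' ∧
        ({v, e, f} : Finset (Fin n)) ∈ T' ∧ a ≠ c ∧ a ≠ d ∧ b ≠ c ∧ b ≠ d ∧
        e ≠ a ∧ e ≠ b ∧ e ≠ c ∧ e ≠ d ∧ f ≠ a ∧ f ≠ b ∧ f ≠ c ∧ f ≠ d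
      then pr T j {a, b, c, d, e, f} else 0) ≤ 64 * M T j

/-- (X) Few triples have a pair of large codegree. `T'` consists of the members of `T` all of whose
pairs have codegree `≤ C`. -/
def StCap : Prop := ∀ (n : ℕ) (T : Finset (Finset (Fin n))) (C S : ℝ), Tri T → 0 < C →
  (∑ v : Fin n, ∑ a : Fin n, ∑ b : Fin n,
      if ({v, a, b} : Finset (Fin n)) ∈ T ∧ C < cod T a b then (1 : ℝ) else 0) ≤ S →
  ∃ T' : Finset (Finset (Fin n)), T' ⊆ T ∧ tt T - 3 * S ≤ tt T' ∧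
    ∀ v a b : Fin n, ({v, a, b} : Finset (Fin n)) ∈ T' → cod T v a ≤ C

end Pool.Agent.T9h35.DC
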